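import Mathlib

set_option autoImplicit false

namespace Pool.Agent.H185R2.Paving

open Set

variable {n : ℕ}

/-- Independence of a set in the rank 4 paving matroid with planes `B`. -/
def Ind (B : Finset (Finset (Fin n))) (I : Set (Fin n)) : Prop :=
  I.ncard ≤ 3 ∨ (I.ncard = 4 ∧ ∀ b ∈ B, ¬ I ⊆ (b : Set (Fin n)))

/-- `B` is a family of blocks of size at least 3, different from the whole set, such that every
3-subset is in exactly one block. -/
structure Good (B : Finset (Finset (Fin n))) : Prop where
  three : ∀ b ∈ B, 3 ≤ b.card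
  proper : ∀ b ∈ B, ∃ e, e ∉ b
  thin : ∀ b ∈ B, ∀ b' ∈ B, b ≠ b' → (b ∩ b').card ≤ 2
  cov : ∀ T : Set (Fin n), T.ncard = 3 → ∃ b ∈ B, T ⊆ (b : Set (Fin n))

theorem Good.uniq {B : Finset (Finset (Fin n))} (h : Good B) {T : Set (Fin n)} (hT : 3 ≤ T.ncard)
    {b b' : Finset (Fin n)} (hb : b ∈ B) (hb' : b' ∈ B) (h1 : T ⊆ b) (h2 : T ⊆ b') : b = b' := by
  by_contra hne
  have h3 := h.thin b hb b' hb' hne
  have h4 : T ⊆ ((b ∩ b' : Finset (Fin n)) : Set (Fin n)) := by
    rw [Finset.coe_inter]; exact subset_inter h1 h2
  have h5 := ncard_le_ncard h4 (Finset.finite_toSet _)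
  rw [ncard_coe_finset] at h5
  omega

theorem Ind.le {B : Finset (Finset (Fin n))} {I : Set (Fin n)} (h : Ind B I) : I.ncard ≤ 4 := by
  rcases h with h | h
  · omega
  · omega

/-- The paving matroid of rank 4 whose planes are the blocks. -/
def M (B : Finset (Finset (Fin n))) (h : Good B) : Matroid (Fin n) :=
  (IndepMatroid.ofFinite (E := univ) finite_univ (Ind B)
    (Or.inl (by simp))
    (by
      intro I J hJ hIJ
      have h1 : I.ncard ≤ J.ncard := ncard_le_ncard hIJ (toFinite J)
      by_cases h2 : I.ncard ≤ 3
      · exact Or.inl h2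
      · right
        have h3 := hJ.le
        rcases hJ with hJ | hJ
        · omega
        · exact ⟨by omega, fun b hb hIb => by
            have h4 : I = J := eq_of_subset_of_ncard_le hIJ (by omega) (toFinite J)
            rw [h4] at hIb
            exact hJ.2 b hb hIb⟩)
    (by
      intro I J hI hJ hlt
      have hJ4 := hJ.le
      by_cases h2 : I.ncard ≤ 2
      · obtain ⟨e, he, heI⟩ := exists_mem_notMem_of_ncard_lt_ncard hlt (toFinite I)
        refine ⟨e, he, heI, Or.inl ?_⟩
        rw [ncard_insert_of_notMem heI (toFinite I)]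
        omega
      · have hI3 : I.ncard = 3 := by omega
        have hJ' : J.ncard = 4 := by omega
        obtain ⟨b, hb, hIb⟩ := h.cov I hI3
        have hJb : ¬ J ⊆ (b : Set (Fin n)) := by
          rcases hJ with hJ | hJ
          · omega
          · exact hJ.2 b hb
        obtain ⟨e, heJ, heb⟩ := not_subset.1 hJb
        have heI : e ∉ I := fun h => heb (hIb h)
        refine ⟨e, heJ, heI, Or.inr ⟨?_, ?_⟩⟩
        · rw [ncard_insert_of_notMem heI (toFinite I)]
          omega
        · intro b' hb' hsub
          have h5 : b = b' := h.uniq (T := I) (by omega) hb hb' hIb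
            ((subset_insert e I).trans hsub)
          rw [← h5] at hsub
          exact heb (hsub (mem_insert e I)))
    (fun I _ => subset_univ I)).matroid

theorem M_E (B : Finset (Finset (Fin n))) (h : Good B) : (M B h).E = univ := rfl

theorem M_indep (B : Finset (Finset (Fin n))) (h : Good B) (I : Set (Fin n)) :
    (M B h).Indep I ↔ Ind B I := Iff.rfl

theorem indep_small (B : Finset (Finset (Fin n))) (h : Good B) {I : Set (Fin n)}
    (hI : I.ncard ≤ 3) : (M B h).Indep I := Or.inl hI

/-- The rank is at most 4. -/
theorem rk_le (B : Finset (Finset (Fin n))) (h : Good B) (X : Set (Fin n)) :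
    (M B h).eRk X ≤ 4 := by
  rw [Matroid.eRk_le_iff]
  intro I _ hI
  have h1 : I.ncard ≤ 4 := Ind.le hI
  rw [← (toFinite I).cast_ncard_eq]
  exact_mod_cast h1

/-- The matroid is paving: circuits have at least `4` elements. -/
theorem paving (B : Finset (Finset (Fin n))) (h : Good B) (C : Set (Fin n))
    (hC : (M B h).IsCircuit C) : (M B h).eRk (M B h).E ≤ C.encard := by
  refine le_trans (rk_le B h _) ?_
  by_contra hlt
  rw [not_le] at hlt
  rw [← (toFinite C).cast_ncard_eq] at hlt
  have h1 : C.ncard < 4 := by exact_mod_cast hlt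
  exact hC.dep.not_indep (indep_small B h (by omega))

/-- Sets of two elements are flats. -/
theorem pair_flat (B : Finset (Finset (Fin n))) (h : Good B) {P : Set (Fin n)}
    (hP : P.ncard ≤ 2) : (M B h).IsFlat P := by
  rw [Matroid.isFlat_iff_closure_eq]
  apply subset_antisymm
  · intro e he
    by_contra heP
    have h1 : (M B h).Indep P := indep_small B h (by omega)
    have h2 := (h1.notMem_closure_iff (e := e) (by rw [M_E]; exact mem_univ e)).2
      ⟨indep_small B h (by
        rw [ncard_insert_of_notMem heP (toFinite P)]; omega), heP⟩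
    exact h2 he
  · exact Matroid.subset_closure _ _ (by rw [M_E]; exact subset_univ _)

/-- The closure of a 3-subset of a block is the block. -/
theorem closure_three (B : Finset (Finset (Fin n))) (h : Good B) {b : Finset (Fin n)}
    (hb : b ∈ B) {T : Set (Fin n)} (hT : T.ncard = 3) (hTb : T ⊆ (b : Set (Fin n))) :
    (M B h).closure T = (b : Set (Fin n)) := by
  have h1 : (M B h).Indep T := indep_small B h (by omega)
  ext e
  by_cases heT : e ∈ T
  · constructor
    · intro _; exact hTb heT
    · intro _; exact Matroid.mem_closure_of_mem _ heT (by rw [M_E]; exact subset_univ _)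
  · have h2 := h1.notMem_closure_iff (e := e) (by rw [M_E]; exact mem_univ e)
    have h3 : (M B h).Indep (insert e T) ↔ e ∉ b := by
      rw [M_indep]
      unfold Ind
      rw [ncard_insert_of_notMem heT (toFinite T), hT]
      constructor
      · rintro (h4 | h4)
        · omega
        · intro heb
          exact h4.2 b hb (insert_subset heb hTb)
      · intro heb
        right
        refine ⟨rfl, ?_⟩
        intro b' hb' hsub
        have h5 : b = b' := h.uniq (T := T) (by omega) hb hb' hTb
          ((subset_insert e T).trans hsub)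
        rw [← h5] at hsub
        exact heb (hsub (mem_insert e T))
    rw [h3] at h2
    constructor
    · intro h4
      by_contra h5
      exact (h2.2 ⟨h5, heT⟩) h4
    · intro h4
      by_contra h5
      exact (h2.1 h5).1 h4

theorem block_flat (B : Finset (Finset (Fin n))) (h : Good B) {b : Finset (Fin n)}
    (hb : b ∈ B) : (M B h).IsFlat (b : Set (Fin n)) := by
  obtain ⟨T, hT1, hT2⟩ := Finset.exists_subset_card_eq (h.three b hb)
  have h1 := closure_three B h hb (T := (T : Set (Fin n))) (by rw [ncard_coe_finset, hT2])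
    (Finset.coe_subset.2 hT1)
  rw [← h1]
  exact Matroid.isFlat_closure _

/-- The number of flats of rank 3 is at most the number of blocks. -/
theorem W_three (B : Finset (Finset (Fin n))) (h : Good B) :
    {F : Set (Fin n) | (M B h).IsFlat F ∧ (M B h).eRk F = ((3 : ℕ) : ℕ∞)}.ncard ≤ B.card := by
  have h1 : {F : Set (Fin n) | (M B h).IsFlat F ∧ (M B h).eRk F = ((3 : ℕ) : ℕ∞)} ⊆
      (fun b : Finset (Fin n) => (b : Set (Fin n))) '' (B : Set (Finset (Fin n))) := by
    rintro F ⟨hF, hr⟩
    obtain ⟨I, hI⟩ := (M B h).exists_isBasis F (by rw [M_E]; exact subset_univ _)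
    have h2 : I.ncard = 3 := by
      have := hI.encard_eq_eRk
      rw [hr, ← (toFinite I).cast_ncard_eq] at this
      exact_mod_cast this
    obtain ⟨b, hb, hIb⟩ := h.cov I h2
    refine ⟨b, hb, ?_⟩
    change (b : Set (Fin n)) = F
    rw [← closure_three B h hb h2 hIb, hI.closure_eq_closure, hF.closure]
  refine le_trans (ncard_le_ncard h1 (toFinite _)) ?_
  refine le_trans (ncard_image_le (toFinite _)) ?_
  rw [ncard_coe_finset]

/-- The number of flats of rank `k` is at most the number of `k`-subsets. -/
theorem W_le (B : Finset (Finset (Fin n))) (h : Good B) (k : ℕ) :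
    {F : Set (Fin n) | (M B h).IsFlat F ∧ (M B h).eRk F = (k : ℕ∞)}.ncard ≤ n.choose k := by
  have h1 : {F : Set (Fin n) | (M B h).IsFlat F ∧ (M B h).eRk F = (k : ℕ∞)} ⊆
      (fun T : Finset (Fin n) => (M B h).closure (T : Set (Fin n))) ''
        (((Finset.univ : Finset (Fin n)).powersetCard k : Finset (Finset (Fin n))) :
          Set (Finset (Fin n))) := by
    rintro F ⟨hF, hr⟩
    obtain ⟨I, hI⟩ := (M B h).exists_isBasis F (by rw [M_E]; exact subset_univ _)
    have h2 : I.ncard = k := by
      have := hI.encard_eq_eRk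
      rw [hr, ← (toFinite I).cast_ncard_eq] at this
      exact_mod_cast this
    refine ⟨(toFinite I).toFinset, ?_, ?_⟩
    · rw [Finset.mem_coe, Finset.mem_powersetCard]
      refine ⟨Finset.subset_univ _, ?_⟩
      rw [← ncard_eq_toFinset_card I (toFinite I), h2]
    · change (M B h).closure _ = F
      rw [Finite.coe_toFinset, hI.closure_eq_closure, hF.closure]
  refine le_trans (ncard_le_ncard h1 (toFinite _)) ?_
  refine le_trans (ncard_image_le (toFinite _)) ?_
  rw [ncard_coe_finset, Finset.card_powersetCard, Finset.card_univ, Fintype.card_fin]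

/-- There is at most one flat of rank at least 4. -/
theorem W_four (B : Finset (Finset (Fin n))) (h : Good B) (k : ℕ) (hk : 4 ≤ k) :
    {F : Set (Fin n) | (M B h).IsFlat F ∧ (M B h).eRk F = (k : ℕ∞)}.ncard ≤ 1 := by
  have h1 : {F : Set (Fin n) | (M B h).IsFlat F ∧ (M B h).eRk F = (k : ℕ∞)} ⊆ {univ} := by
    rintro F ⟨hF, hr⟩
    rw [mem_singleton_iff]
    obtain ⟨I, hI⟩ := (M B h).exists_isBasis F (by rw [M_E]; exact subset_univ _)
    have h2 : I.ncard = k := by
      have := hI.encard_eq_eRk
      rw [hr, ← (toFinite I).cast_ncard_eq] at this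
      exact_mod_cast this
    rw [eq_univ_iff_forall]
    intro e
    by_contra heF
    have heI : e ∉ I := fun h => heF (hI.subset h)
    have h3 : e ∉ (M B h).closure I := by
      rw [hI.closure_eq_closure, hF.closure]; exact heF
    have h4 := (hI.indep.notMem_closure_iff (e := e) (by rw [M_E]; exact mem_univ e)).1 h3
    have h5 : (insert e I).ncard ≤ 4 := Ind.le h4.1
    rw [ncard_insert_of_notMem heI (toFinite I)] at h5
    omega
  refine le_trans (ncard_le_ncard h1 (toFinite _)) ?_
  simp

end Pool.Agent.H185R2.Paving
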