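import Mathlib

set_option autoImplicit false

namespace Pool.Agent.H185R2.Thin

open Finset

variable {n : ℕ}

/-- The function `f` of the problem. -/
def fv (A : Finset (Fin n)) : ℤ :=
  if 3 ≤ A.card then 3 * (A.card : ℤ) - 6 else if A.card = 2 then 1 else 0

theorem subset_inf (S : Finset (Finset (Fin n))) (e : Finset (Fin n)) :
    e ⊆ S.inf id ↔ ∀ A ∈ S, e ⊆ A := by
  exact @Finset.le_inf_iff (Finset (Fin n)) (Finset (Fin n)) _ _ S id e

/-- Value of `f` on the intersection of a nonempty subfamily of a thin family of 6-sets. -/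
theorem fv_inf (Z : Finset (Finset (Fin n))) (h6 : ∀ A ∈ Z, A.card = 6)
    (hthin : ∀ A ∈ Z, ∀ A' ∈ Z, A ≠ A' → (A ∩ A').card ≤ 2)
    (S : Finset (Finset (Fin n))) (hS : S ⊆ Z) (hne : S.Nonempty) :
    fv (S.inf id) = (if S.card = 1 then (-3 : ℤ) else 0) +
      (((univ : Finset (Fin n)).powersetCard 2).filter (fun e => ∀ A ∈ S, e ⊆ A)).card := by
  have hfil : ((univ : Finset (Fin n)).powersetCard 2).filter (fun e => ∀ A ∈ S, e ⊆ A) =
      (S.inf id).powersetCard 2 := by
    ext e
    rw [mem_filter, mem_powersetCard, mem_powersetCard, subset_inf]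
    constructor
    · rintro ⟨⟨_, h1⟩, h2⟩; exact ⟨h2, h1⟩
    · rintro ⟨h2, h1⟩; exact ⟨⟨subset_univ _, h1⟩, h2⟩
  rw [hfil, card_powersetCard]
  by_cases h1 : S.card = 1
  · obtain ⟨A, rfl⟩ := card_eq_one.1 h1
    have hA : A.card = 6 := h6 A (hS (mem_singleton_self A))
    simp only [inf_singleton, id]
    unfold fv
    rw [hA]
    simp only [card_singleton]
    norm_num [Nat.choose]
  · rw [if_neg h1, zero_add]
    have h2 : 1 < S.card := by
      have := hne.card_pos
      omega
    obtain ⟨A, hA, B, hB, hAB⟩ := one_lt_card.1 h2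
    have hc : (S.inf id).card ≤ 2 := by
      refine le_trans (card_le_card ?_) (hthin A (hS hA) B (hS hB) hAB)
      intro x hx
      have hx' := (subset_inf S {x}).1 (singleton_subset_iff.2 hx)
      exact mem_inter.2 ⟨singleton_subset_iff.1 (hx' A hA), singleton_subset_iff.1 (hx' B hB)⟩
    unfold fv
    rw [if_neg (by omega)]
    interval_cases h : (S.inf id).card <;> simp

/-- The characteristic of a thin family of 6-sets: the number of covered pairs minus
three times the number of members. -/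
theorem chi_eq (Z : Finset (Finset (Fin n))) (h6 : ∀ A ∈ Z, A.card = 6)
    (hthin : ∀ A ∈ Z, ∀ A' ∈ Z, A ≠ A' → (A ∩ A').card ≤ 2) :
    ∑ S ∈ Z.powerset.filter (fun S => S.Nonempty), (-1 : ℤ) ^ (S.card + 1) * fv (S.inf id) =
      (((univ : Finset (Fin n)).powersetCard 2).filter (fun e => ∃ A ∈ Z, e ⊆ A)).card
        - 3 * (Z.card : ℤ) := by
  have e1 : ∑ S ∈ Z.powerset.filter (fun S => S.Nonempty),
      (-1 : ℤ) ^ (S.card + 1) * fv (S.inf id) =
      ∑ S ∈ Z.powerset.filter (fun S => S.Nonempty), ((if S.card = 1 then (-3 : ℤ) else 0) +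
        ∑ e ∈ (univ : Finset (Fin n)).powersetCard 2,
          (if (∀ A ∈ S, e ⊆ A) then (-1 : ℤ) ^ (S.card + 1) else 0)) := by
    apply sum_congr rfl
    intro S hS
    rw [mem_filter, mem_powerset] at hS
    rw [fv_inf Z h6 hthin S hS.1 hS.2, mul_add]
    congr 1
    · by_cases h1 : S.card = 1
      · rw [h1]; norm_num
      · rw [if_neg h1]; simp
    · rw [← sum_filter, sum_const, nsmul_eq_mul, mul_comm]
  rw [e1, sum_add_distrib, sum_comm]
  have e2 : ∑ S ∈ Z.powerset.filter (fun S => S.Nonempty), (if S.card = 1 then (-3 : ℤ) else 0) =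
      - 3 * (Z.card : ℤ) := by
    rw [← sum_filter, sum_const, nsmul_eq_mul]
    have : (Z.powerset.filter (fun S => S.Nonempty)).filter (fun S => S.card = 1) =
        Z.powersetCard 1 := by
      ext S
      rw [mem_filter, mem_filter, mem_powerset, mem_powersetCard]
      constructor
      · rintro ⟨⟨h1, _⟩, h3⟩; exact ⟨h1, h3⟩
      · rintro ⟨h1, h3⟩; exact ⟨⟨h1, card_pos.1 (by omega)⟩, h3⟩
    rw [this, card_powersetCard, Nat.choose_one_right]
    ring
  rw [e2]
  have e3 : ∀ e ∈ (univ : Finset (Fin n)).powersetCard 2,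
      ∑ S ∈ Z.powerset.filter (fun S => S.Nonempty),
        (if (∀ A ∈ S, e ⊆ A) then (-1 : ℤ) ^ (S.card + 1) else 0) =
      if (∃ A ∈ Z, e ⊆ A) then 1 else 0 := by
    intro e _
    rw [← sum_filter]
    have h1 : (Z.powerset.filter (fun S => S.Nonempty)).filter (fun S => ∀ A ∈ S, e ⊆ A) =
        (Z.filter (fun A => e ⊆ A)).powerset.filter (fun S => S.Nonempty) := by
      ext S
      simp only [mem_filter, mem_powerset]
      constructor
      · rintro ⟨⟨h1, h2⟩, h3⟩
        exact ⟨fun A hA => mem_filter.2 ⟨h1 hA, h3 A hA⟩, h2⟩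
      · rintro ⟨h1, h2⟩
        exact ⟨⟨fun A hA => (mem_filter.1 (h1 hA)).1, h2⟩, fun A hA => (mem_filter.1 (h1 hA)).2⟩
    rw [h1]
    set W := Z.filter (fun A => e ⊆ A) with hW
    have h2 : ∑ S ∈ W.powerset.filter (fun S => S.Nonempty), (-1 : ℤ) ^ (S.card + 1) =
        1 - ∑ S ∈ W.powerset, (-1 : ℤ) ^ S.card := by
      have h3 := sum_filter_add_sum_filter_not W.powerset (fun S => S.Nonempty)
        (fun S => (-1 : ℤ) ^ S.card)
      have h4 : W.powerset.filter (fun S => ¬ S.Nonempty) = {∅} := by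
        ext S
        simp only [mem_filter, mem_powerset, mem_singleton, not_nonempty_iff_eq_empty]
        constructor
        · rintro ⟨_, h⟩; exact h
        · rintro rfl; exact ⟨empty_subset _, rfl⟩
      rw [h4] at h3
      simp only [sum_singleton, card_empty, pow_zero] at h3
      have h5 : ∑ S ∈ W.powerset.filter (fun S => S.Nonempty), (-1 : ℤ) ^ (S.card + 1) =
          - ∑ S ∈ W.powerset.filter (fun S => S.Nonempty), (-1 : ℤ) ^ S.card := by
        rw [← sum_neg_distrib]
        apply sum_congr rfl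
        intro S _
        rw [pow_succ]; ring
      rw [h5]
      linarith
    rw [h2]
    by_cases h3 : ∃ A ∈ Z, e ⊆ A
    · rw [if_pos h3]
      obtain ⟨A, hA, hAe⟩ := h3
      have hne : W.Nonempty := ⟨A, mem_filter.2 ⟨hA, hAe⟩⟩
      rw [sum_powerset_neg_one_pow_card_of_nonempty hne]
      ring
    · rw [if_neg h3]
      have hW0 : W = ∅ := by
        rw [hW, filter_eq_empty_iff]
        intro A hA hAe
        exact h3 ⟨A, hA, hAe⟩
      rw [hW0]
      simp
  rw [sum_congr rfl e3, ← sum_filter, sum_const, nsmul_eq_mul]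
  ring

end Pool.Agent.H185R2.Thin
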